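import Mathlib

set_option autoImplicit false

/-! Division algebras of uncountable dimension have proper subalgebras which are not PI
(helper634). -/

namespace Pool.Agent.Results.MP_5766af_al.UncountableDimension

open Cardinal

universe u

/-- `A` satisfies a nonzero (noncommutative) polynomial identity with coefficients in `F` -/
def IsPI (F : Type u) [Field F] (A : Type u) [Ring A] [Algebra F A] : Prop :=
  ∃ n : ℕ, ∃ f : FreeAlgebra F (Fin n), f ≠ 0 ∧ ∀ a : Fin n → A, FreeAlgebra.lift F a f = 0

private lemma fin_sub {F : Type u} [Field F] {N D : Type*} [AddCommGroup N] [Module F N]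
    [AddCommGroup D] [Module F D] {ι : Type*} (ev : ι → (N →ₗ[F] D)) (W : Submodule F N)
    [FiniteDimensional F W] (h : ∀ f ∈ W, (∀ i, ev i f = 0) → f = 0) :
    ∃ T : Finset ι, ∀ f ∈ W, (∀ i ∈ T, ev i f = 0) → f = 0 := by
  classical
  let K : Finset ι → Submodule F W := fun T =>
    ⨅ i ∈ T, LinearMap.ker ((ev i).comp W.subtype)
  obtain ⟨U, ⟨T, rfl⟩, hU⟩ := IsArtinian.set_has_minimal (Set.range K) ⟨K ∅, ∅, rfl⟩
  refine ⟨T, fun f hf hT => ?_⟩
  by_contra hne
  have : ∃ j, ev j f ≠ 0 := by
    by_contra hc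
    push Not at hc
    exact hne (h f hf hc)
  obtain ⟨j, hj⟩ := this
  refine hU (K (insert j T)) ⟨_, rfl⟩ ?_
  refine lt_of_le_of_ne ?_ ?_
  · intro x hx
    simp only [K, Submodule.mem_iInf, Finset.mem_insert] at hx ⊢
    exact fun i hi => hx i (Or.inr hi)
  · intro he
    have h1 : (⟨f, hf⟩ : W) ∈ K T := by
      simp only [K, Submodule.mem_iInf]
      intro i hi
      simpa using hT i hi
    rw [← he] at h1
    simp only [K, Submodule.mem_iInf, Finset.mem_insert] at h1
    exact hj (by simpa using h1 j (Or.inl rfl))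

private lemma exists_sub (F : Type u) [Field F] (D : Type u) [Ring D] [Algebra F D]
    (hPI : ¬ IsPI F D) : ∃ S : Set D, S.Countable ∧ ¬ IsPI F (Algebra.adjoin F S) := by
  classical
  have key : ∀ p : (Σ n : ℕ, Finset (FreeMonoid (Fin n))), ∃ T : Finset (Fin p.1 → D),
      ∀ f ∈ Submodule.span F ((FreeAlgebra.basisFreeMonoid F (Fin p.1)) ''
        (p.2 : Set (FreeMonoid (Fin p.1)))),
      (∀ a ∈ T, FreeAlgebra.lift F a f = 0) → f = 0 := by
    rintro ⟨n, s⟩
    have hfin : FiniteDimensional F (Submodule.span F ((FreeAlgebra.basisFreeMonoid F (Fin n)) ''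
        (s : Set (FreeMonoid (Fin n))))) :=
      FiniteDimensional.span_of_finite F (s.finite_toSet.image _)
    obtain ⟨T, hT⟩ := fin_sub (fun a : Fin n → D => (FreeAlgebra.lift F a).toLinearMap)
      (Submodule.span F ((FreeAlgebra.basisFreeMonoid F (Fin n)) ''
        (s : Set (FreeMonoid (Fin n))))) (fun f _ hf => by
        by_contra hne
        exact hPI ⟨n, f, hne, fun a => by simpa using hf a⟩)
    exact ⟨T, fun f hf ha => hT f hf (fun a haT => by simpa using ha a haT)⟩
  choose T hT using key
  have hc : ∀ n : ℕ, Countable (FreeMonoid (Fin n)) := fun n =>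
    inferInstanceAs (Countable (List (Fin n)))
  refine ⟨⋃ p, ⋃ a ∈ T p, Set.range a, ?_, ?_⟩
  · refine Set.countable_iUnion (fun p => ?_)
    exact (T p).countable_toSet.biUnion (fun a _ => Set.countable_range a)
  · rintro ⟨n, f, hf, hA⟩
    apply hf
    refine hT ⟨n, ((FreeAlgebra.basisFreeMonoid F (Fin n)).repr f).support⟩ f
      (Module.Basis.mem_span_repr_support _ f) (fun a ha => ?_)
    have hmem : ∀ i, a i ∈ Algebra.adjoin F (⋃ p, ⋃ a ∈ T p, Set.range a) := by
      intro i
      apply Algebra.subset_adjoin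
      simp only [Set.mem_iUnion]
      exact ⟨_, a, ha, i, rfl⟩
    have h1 := hA (fun i => ⟨a i, hmem i⟩)
    have h2 := congrArg (Algebra.adjoin F (⋃ p, ⋃ a ∈ T p, Set.range a)).val h1
    have h3 : (Algebra.adjoin F (⋃ p, ⋃ a ∈ T p, Set.range a)).val.comp
        (FreeAlgebra.lift F (fun i => (⟨a i, hmem i⟩ :
          Algebra.adjoin F (⋃ p, ⋃ a ∈ T p, Set.range a)))) = FreeAlgebra.lift F a := by
      apply FreeAlgebra.hom_ext
      funext i
      simp
    rw [← h3]
    simpa using h2

private lemma rank_big {F : Type u} [Field F] {D : Type u} [DivisionRing D] [Algebra F D]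
    (hF : ℵ₀ < #F) (hD : ¬ Algebra.IsAlgebraic F D) : ℵ₀ < Module.rank F D := by
  classical
  have : ∃ t : D, Transcendental F t := by
    by_contra hc
    apply hD
    constructor
    intro x
    by_contra hx
    exact hc ⟨x, hx⟩
  obtain ⟨t, ht⟩ := this
  have hne : ∀ c : F, t - algebraMap F D c ≠ 0 := by
    intro c h
    rw [sub_eq_zero] at h
    exact ht (h ▸ isAlgebraic_algebraMap c)
  have hli : LinearIndependent F (fun c : F => (t - algebraMap F D c)⁻¹) := by
    rw [linearIndependent_iff']
    intro s g hg c hc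
    have h1 : (∑ d ∈ s, g d • (t - algebraMap F D d)⁻¹) *
        Polynomial.aeval t (∏ e ∈ s, (Polynomial.X - Polynomial.C e)) =
        Polynomial.aeval t (∑ d ∈ s, Polynomial.C (g d) *
          ∏ e ∈ s.erase d, (Polynomial.X - Polynomial.C e)) := by
      rw [Finset.sum_mul, map_sum]
      refine Finset.sum_congr rfl (fun d hd => ?_)
      rw [← Finset.mul_prod_erase s _ hd, map_mul, map_mul, map_sub, Polynomial.aeval_X,
        Polynomial.aeval_C, Polynomial.aeval_C, smul_mul_assoc, ← mul_assoc,
        inv_mul_cancel₀ (hne d), one_mul, Algebra.smul_def]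
    rw [hg, zero_mul] at h1
    have h2 : (∑ d ∈ s, Polynomial.C (g d) *
          ∏ e ∈ s.erase d, (Polynomial.X - Polynomial.C e)) = 0 := by
      by_contra hne0
      exact ht ⟨_, hne0, h1.symm⟩
    have h3 := congrArg (Polynomial.eval c) h2
    rw [Polynomial.eval_finsetSum, Finset.sum_eq_single c] at h3
    · rw [Polynomial.eval_mul, Polynomial.eval_C, Polynomial.eval_prod, Polynomial.eval_zero] at h3
      rcases mul_eq_zero.1 h3 with h | h
      · exact h
      · exfalso
        rw [Finset.prod_eq_zero_iff] at h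
        obtain ⟨e, he, h⟩ := h
        rw [Polynomial.eval_sub, Polynomial.eval_X, Polynomial.eval_C, sub_eq_zero] at h
        exact (Finset.mem_erase.1 he).1 h.symm
    · intro d _ hdc
      rw [Polynomial.eval_mul, Polynomial.eval_prod]
      apply mul_eq_zero_of_right
      apply Finset.prod_eq_zero (Finset.mem_erase.2 ⟨fun h => hdc h.symm, hc⟩)
      simp
    · intro h; exact absurd hc h
  exact hF.trans_le hli.cardinal_le_rank

/-- Let `D` be a division algebra over a field `F` which is not PI. Suppose that `dim_F D` is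
uncountable, or that `F` is uncountable and `D` is not algebraic over `F`. Then `D` has a proper
subalgebra which is not PI; it can be taken countably generated. -/
theorem result (F D : Type u) [Field F] [DivisionRing D] [Algebra F D] (hPI : ¬ IsPI F D)
    (h : ℵ₀ < Module.rank F D ∨ (ℵ₀ < #F ∧ ¬ Algebra.IsAlgebraic F D)) :
    ∃ S : Set D, S.Countable ∧ Algebra.adjoin F S ≠ ⊤ ∧ ¬ IsPI F (Algebra.adjoin F S) := by
  obtain ⟨S, hS, hA⟩ := exists_sub F D hPI
  refine ⟨S, hS, ?_, hA⟩
  intro htop
  have hr : ℵ₀ < Module.rank F D := by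
    rcases h with h | ⟨h1, h2⟩
    · exact h
    · exact rank_big h1 h2
  have h1 : Module.rank F (Algebra.adjoin F S) ≤ max #S ℵ₀ := Algebra.rank_adjoin_le S
  rw [max_eq_right (Cardinal.le_aleph0_iff_set_countable.2 hS), htop] at h1
  have h2 : Module.rank F (⊤ : Subalgebra F D) = Module.rank F D :=
    (Subalgebra.topEquiv (R := F) (A := D)).toLinearEquiv.rank_eq
  rw [h2] at h1
  exact absurd hr (not_lt.2 h1)

end Pool.Agent.Results.MP_5766af_al.UncountableDimension
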